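import Mathlib

/-!
# Maker's winning probability in the phantom minimum-degree-1 game

We refute the assertion of the problem. Let `b = 2 * a * m` with `m > 1`. For all large `n` and every
randomized strategy of Maker on the complete graph with `n` vertices there is a strategy of
PhantomBreaker which holds Maker's winning probability below `(19 / 20) / m!`.

The strategy of PhantomBreaker: he picks a random vertex among those which Maker has not attempted
to touch yet, and claims free edges at this vertex until Maker attempts an edge at it; then he picks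
a new random vertex among the vertices not yet touched by any attempt, and so on. The gain over the
known bound `1 / m!` is that after an early hit more than the guaranteed number of vertices is left.
-/

open Finset
open scoped ENNReal

namespace Pool.Agent.Results.MP_5d876b_co.BelowInverseFactorial

/-- The board: the edges of the complete graph on the vertex set `Fin n`. -/
abbrev Edge (n : ℕ) : Type := {e : Sym2 (Fin n) // ¬ e.IsDiag}

/-- A position of the game: Maker's edges, PhantomBreaker's edges, and the record of all attempts of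
Maker, the latest one first. Each entry of the record consists of the edge Maker chose and of the
answer she got: `false` if the edge was taken by PhantomBreaker (the attempt failed), `true`
otherwise. -/
structure Position (n : ℕ) where
  /-- the edges of Maker -/
  maker : Finset (Edge n)
  /-- the edges of PhantomBreaker -/
  breaker : Finset (Edge n)
  /-- the record of the attempts of Maker, with the answers, the latest one first -/
  log : List (Edge n × Bool)

variable {n : ℕ}

/-- The unclaimed edges of a position. -/
def Position.free (p : Position n) : Finset (Edge n) := (p.maker ∪ p.breaker)ᶜ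

/-- A deterministic strategy of Maker. It chooses the next edge from what Maker knows: the record of
her own attempts and of their answers. She never sees the edges of PhantomBreaker. (She gets the
answer after each single attempt, and she may also choose an edge which she holds already or which
she knows to be taken; such an attempt has no effect. Both conventions can only help Maker.) -/
abbrev MakerStrategy (n : ℕ) : Type := List (Edge n × Bool) → Edge n

/-- A strategy of PhantomBreaker. He sees the whole position, including the record. -/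
abbrev BreakerStrategy (n : ℕ) : Type := Position n → Finset (Edge n)

/-- The strategy `τ` of PhantomBreaker obeys the rules of the game with bias `b`: in each position it
claims `b` unclaimed edges (or all unclaimed edges, if there are fewer than `b`). -/
def Legal (b : ℕ) (τ : BreakerStrategy n) : Prop :=
  ∀ p, τ p ⊆ p.free ∧ (τ p).card = min b p.free.card

/-- Maker's next attempt. If the chosen edge belongs to PhantomBreaker then the attempt fails and is
lost; otherwise the edge is Maker's. The attempt and its answer are recorded. -/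
def attempt (σ : MakerStrategy n) (p : Position n) : Position n :=
  if σ p.log ∈ p.breaker then ⟨p.maker, p.breaker, (σ p.log, false) :: p.log⟩
  else ⟨insert (σ p.log) p.maker, p.breaker, (σ p.log, true) :: p.log⟩

/-- PhantomBreaker's move: he adds the edges of `τ p` to his edges. -/
def reply (τ : BreakerStrategy n) (p : Position n) : Position n :=
  ⟨p.maker, p.breaker ∪ τ p, p.log⟩

/-- `play a σ τ t` is the position right after the `t`-th attempt of Maker in the game in which each
round consists of `a` attempts of Maker followed by one move of PhantomBreaker. So PhantomBreaker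
moves after the `t`-th attempt, and before the next one, exactly if `t` is a positive multiple
of `a`. When all edges are claimed the sets of edges do not change any more. -/
def play (a : ℕ) (σ : MakerStrategy n) (τ : BreakerStrategy n) : ℕ → Position n
  | 0 => ⟨∅, ∅, []⟩
  | t + 1 => attempt σ (if 0 < t ∧ a ∣ t then reply τ (play a σ τ t) else play a σ τ t)

/-- Maker wins the minimum-degree-1 game: every vertex is in the end contained in one of her
edges. -/
def MakerWins (a : ℕ) (σ : MakerStrategy n) (τ : BreakerStrategy n) : Prop :=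
  ∀ v : Fin n, ∃ t, ∃ e ∈ (play a σ τ t).maker, v ∈ e.1

/-- The probability that Maker wins if she plays the randomized strategy `μ` (a probability
distribution on the deterministic strategies) against the strategy `τ` of PhantomBreaker. -/
noncomputable def winProb (a : ℕ) (μ : PMF (MakerStrategy n)) (τ : BreakerStrategy n) : ℝ≥0∞ :=
  μ.toOuterMeasure {σ | MakerWins a σ τ}

/-! ### Unattempted vertices -/

/-- The vertices which are on no edge of the record `l`: Maker has not attempted to touch them. -/
def unatt (l : List (Edge n × Bool)) : Finset (Fin n) :=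
  univ.filter (fun v => ∀ x ∈ l, v ∉ x.1.1)

theorem mem_unatt {l : List (Edge n × Bool)} {v : Fin n} :
    v ∈ unatt l ↔ ∀ x ∈ l, v ∉ x.1.1 := by simp [unatt]

theorem unatt_nil : unatt ([] : List (Edge n × Bool)) = univ := by simp [unatt]

theorem mem_unatt_cons {x : Edge n × Bool} {l : List (Edge n × Bool)} {v : Fin n} :
    v ∈ unatt (x :: l) ↔ v ∉ x.1.1 ∧ v ∈ unatt l := by simp [mem_unatt]

theorem card_mem_le_two (e : Edge n) (A : Finset (Fin n)) : (A.filter (fun v => v ∈ e.1)).card ≤ 2 := by
  obtain ⟨e, he⟩ := e
  induction e using Sym2.ind with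
  | _ x y =>
    have : (A.filter (fun v => v ∈ (s(x, y) : Sym2 (Fin n)))) ⊆ {x, y} := by
      intro v hv
      simp at hv
      simp [hv.2]
    exact (card_le_card this).trans card_le_two

theorem card_unatt_cons (x : Edge n × Bool) (l : List (Edge n × Bool)) :
    (unatt l).card ≤ (unatt (x :: l)).card + 2 := by
  have h : unatt l ⊆ unatt (x :: l) ∪ (unatt l).filter (fun v => v ∈ x.1.1) := by
    intro v hv
    by_cases h : v ∈ x.1.1
    · exact mem_union_right _ (by simp [hv, h])
    · exact mem_union_left _ (mem_unatt_cons.2 ⟨h, hv⟩)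
  calc (unatt l).card ≤ _ := card_le_card h
    _ ≤ _ := card_union_le _ _
    _ ≤ _ := Nat.add_le_add_left (card_mem_le_two _ _) _

/-- number of edges at a vertex is at most `n` -/
theorem card_star (v : Fin n) (F : Finset (Edge n)) : (F.filter (fun e => v ∈ e.1)).card ≤ n := by
  classical
  have hsub : (F.filter (fun e => v ∈ e.1)).card ≤
      ((univ : Finset (Fin n)).image (fun w => (s(v, w) : Sym2 (Fin n)))).card := by
    rw [← card_image_of_injective (F.filter (fun e => v ∈ e.1)) Subtype.val_injective]
    apply card_le_card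
    intro e he
    rw [mem_image] at he
    obtain ⟨e', he', rfl⟩ := he
    rw [mem_filter] at he'
    obtain ⟨w, hw⟩ := Sym2.mem_iff_exists.1 he'.2
    exact mem_image.2 ⟨w, mem_univ _, hw.symm⟩
  refine hsub.trans (card_image_le.trans ?_)
  simp

/-! ### The claims of PhantomBreaker aimed at a target vertex -/

theorem exists_claim (b : ℕ) (p : Position n) (v : Fin n) : ∃ S : Finset (Edge n), S ⊆ p.free ∧
    S.card = min b p.free.card ∧
    (p.free.filter (fun e => v ∈ e.1) ⊆ S ∨ S ⊆ p.free.filter (fun e => v ∈ e.1)) := by
  classical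
  set T := p.free.filter (fun e => v ∈ e.1) with hT
  rcases le_or_gt T.card (min b p.free.card) with h | h
  · obtain ⟨S, h1, h2, h3⟩ := exists_subsuperset_card_eq (filter_subset _ _) h (min_le_right _ _)
    exact ⟨S, h2, h3, Or.inl h1⟩
  · obtain ⟨S, h1, h2⟩ := exists_subset_card_eq h.le
    exact ⟨S, h1.trans (filter_subset _ _), h2, Or.inr h1⟩

/-- PhantomBreaker's move aimed at the vertex `v`: `b` free edges, as many of them as possible
at `v`. -/
noncomputable def claim (b : ℕ) (p : Position n) (v : Fin n) : Finset (Edge n) :=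
  Classical.choose (exists_claim b p v)

theorem claim_spec (b : ℕ) (p : Position n) (v : Fin n) : claim b p v ⊆ p.free ∧
    (claim b p v).card = min b p.free.card ∧
    (p.free.filter (fun e => v ∈ e.1) ⊆ claim b p v ∨
      claim b p v ⊆ p.free.filter (fun e => v ∈ e.1)) :=
  Classical.choose_spec (exists_claim b p v)

/-- The target of PhantomBreaker for the choice function `g`: when Maker attempts an edge at the
target `v`, the new target is `g` of the set of vertices which have not been attempted. -/
def tgt (g : Finset (Fin n) → Fin n) : List (Edge n × Bool) → Fin n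
  | [] => g (unatt [])
  | x :: l => if tgt g l ∈ x.1.1 then g (unatt (x :: l)) else tgt g l

/-- The strategy of PhantomBreaker for the choice function `g`: he always claims edges at the
target. -/
noncomputable def strat (b : ℕ) (g : Finset (Fin n) → Fin n) : BreakerStrategy n :=
  fun p => claim b p (tgt g p.log)

theorem strat_legal (b : ℕ) (g : Finset (Fin n) → Fin n) : Legal b (strat b g) :=
  fun p => ⟨(claim_spec b p _).1, (claim_spec b p _).2.1⟩

/-! ### Runs -/

/-- PhantomBreaker's reply (if due) aimed at `v` -/
noncomputable def settle (a b : ℕ) (p : Position n) (v : Fin n) : Position n :=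
  if 0 < p.log.length ∧ a ∣ p.log.length then ⟨p.maker, p.breaker ∪ claim b p v, p.log⟩ else p

theorem settle_log (a b : ℕ) (p : Position n) (v : Fin n) : (settle a b p v).log = p.log := by
  unfold settle; split_ifs <;> rfl

theorem settle_maker (a b : ℕ) (p : Position n) (v : Fin n) : (settle a b p v).maker = p.maker := by
  unfold settle; split_ifs <;> rfl

theorem attempt_log (σ : MakerStrategy n) (p : Position n) :
    ∃ r, (attempt σ p).log = (σ p.log, r) :: p.log := by
  unfold attempt; split_ifs
  · exact ⟨false, rfl⟩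
  · exact ⟨true, rfl⟩

theorem attempt_breaker (σ : MakerStrategy n) (p : Position n) :
    (attempt σ p).breaker = p.breaker := by
  unfold attempt; split_ifs <;> rfl

theorem attempt_maker (σ : MakerStrategy n) (p : Position n) :
    (attempt σ p).maker = if σ p.log ∈ p.breaker then p.maker else insert (σ p.log) p.maker := by
  unfold attempt; split_ifs <;> rfl

theorem maker_subset_attempt (σ : MakerStrategy n) (p : Position n) :
    p.maker ⊆ (attempt σ p).maker := by
  rw [attempt_maker]; split_ifs
  · exact Subset.rfl
  · exact subset_insert _ _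

/-- the extended step: a position together with the current target -/
noncomputable def xstep (a b : ℕ) (σ : MakerStrategy n) (g : Finset (Fin n) → Fin n)
    (q : Position n × Fin n) : Position n × Fin n :=
  (attempt σ (settle a b q.1 q.2),
    if q.2 ∈ (σ q.1.log).1 then g (unatt (attempt σ (settle a b q.1 q.2)).log) else q.2)

theorem play_log_length (a : ℕ) (σ : MakerStrategy n) (τ : BreakerStrategy n) (t : ℕ) :
    (play a σ τ t).log.length = t := by
  induction t with
  | zero => rfl
  | succ t ih =>
    rw [play]
    split_ifs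
    · obtain ⟨r, hr⟩ := attempt_log σ (reply τ (play a σ τ t))
      rw [hr]; simp [reply, ih]
    · obtain ⟨r, hr⟩ := attempt_log σ (play a σ τ t)
      rw [hr]; simp [ih]

theorem play_eq_xrun (a b : ℕ) (σ : MakerStrategy n) (g : Finset (Fin n) → Fin n) (t : ℕ) :
    (xstep a b σ g)^[t] (⟨∅, ∅, []⟩, g (unatt [])) =
      (play a σ (strat b g) t, tgt g (play a σ (strat b g) t).log) := by
  induction t with
  | zero => rfl
  | succ t ih =>
    rw [Function.iterate_succ_apply', ih]
    have hlen := play_log_length a σ (strat b g) t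
    have hs : settle a b (play a σ (strat b g) t) (tgt g (play a σ (strat b g) t).log) =
        if 0 < t ∧ a ∣ t then reply (strat b g) (play a σ (strat b g) t)
          else play a σ (strat b g) t := by
      unfold settle
      rw [hlen]
      rfl
    have hp : play a σ (strat b g) (t + 1) =
        attempt σ (settle a b (play a σ (strat b g) t) (tgt g (play a σ (strat b g) t).log)) := by
      rw [hs]; rfl
    unfold xstep
    simp only
    rw [← hp]
    congr 1
    obtain ⟨r, hr⟩ := attempt_log σ
      (settle a b (play a σ (strat b g) t) (tgt g (play a σ (strat b g) t).log))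
    rw [← hp, settle_log] at hr
    rw [hr]
    rfl

/-- Maker's edges eventually cover all vertices -/
def WinX (a b : ℕ) (σ : MakerStrategy n) (g : Finset (Fin n) → Fin n)
    (q : Position n × Fin n) : Prop :=
  ∀ w : Fin n, ∃ t, ∃ e ∈ ((xstep a b σ g)^[t] q).1.maker, w ∈ e.1

theorem makerWins_iff (a b : ℕ) (σ : MakerStrategy n) (g : Finset (Fin n) → Fin n) :
    MakerWins a σ (strat b g) ↔ WinX a b σ g (⟨∅, ∅, []⟩, g (unatt [])) := by
  unfold MakerWins WinX
  simp only [play_eq_xrun]

theorem maker_subset_xstep (a b : ℕ) (σ : MakerStrategy n) (g : Finset (Fin n) → Fin n)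
    (q : Position n × Fin n) : q.1.maker ⊆ (xstep a b σ g q).1.maker := by
  unfold xstep
  refine Subset.trans ?_ (maker_subset_attempt σ _)
  rw [settle_maker]

theorem maker_subset_xrun (a b : ℕ) (σ : MakerStrategy n) (g : Finset (Fin n) → Fin n)
    (q : Position n × Fin n) (k : ℕ) : q.1.maker ⊆ ((xstep a b σ g)^[k] q).1.maker := by
  induction k with
  | zero => exact Subset.rfl
  | succ k ih =>
    rw [Function.iterate_succ_apply']
    exact ih.trans (maker_subset_xstep a b σ g _)

theorem winX_shift (a b : ℕ) (σ : MakerStrategy n) (g : Finset (Fin n) → Fin n)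
    (q : Position n × Fin n) (k : ℕ) (h : WinX a b σ g q) : WinX a b σ g ((xstep a b σ g)^[k] q) := by
  intro w
  obtain ⟨t, e, he, hw⟩ := h w
  refine ⟨t, e, ?_, hw⟩
  rw [← Function.iterate_add_apply, add_comm, Function.iterate_add_apply]
  exact maker_subset_xrun a b σ g _ k he


/-! ### Isolation of the target -/

/-- no edge at `v` is Maker's or free -/
def Iso (p : Position n) (v : Fin n) : Prop :=
  (∀ e ∈ p.maker, v ∉ e.1) ∧ ∀ e ∈ p.free, v ∉ e.1

theorem free_iff {p : Position n} {e : Edge n} : e ∈ p.free ↔ e ∉ p.maker ∧ e ∉ p.breaker := by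
  simp [Position.free]

theorem iso_attempt {σ : MakerStrategy n} {p : Position n} {v : Fin n} (h : Iso p v) :
    Iso (attempt σ p) v := by
  obtain ⟨h1, h2⟩ := h
  have hm : ∀ e ∈ (attempt σ p).maker, v ∉ e.1 := by
    intro e he
    rw [attempt_maker] at he
    split_ifs at he with hb
    · exact h1 e he
    · rcases mem_insert.1 he with rfl | he
      · by_cases hmk : σ p.log ∈ p.maker
        · exact h1 _ hmk
        · exact h2 _ (free_iff.2 ⟨hmk, hb⟩)
      · exact h1 e he
  refine ⟨hm, fun e he => ?_⟩
  rw [free_iff, attempt_breaker] at he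
  refine h2 e (free_iff.2 ⟨fun hmk => he.1 (maker_subset_attempt σ p hmk), he.2⟩)

theorem iso_settle {a b : ℕ} {p : Position n} {v w : Fin n} (h : Iso p v) :
    Iso (settle a b p w) v := by
  unfold settle
  split_ifs
  · refine ⟨h.1, fun e he => ?_⟩
    rw [free_iff] at he
    exact h.2 e (free_iff.2 ⟨he.1, fun hb => he.2 (mem_union_left _ hb)⟩)
  · exact h

theorem iso_xstep {a b : ℕ} {σ : MakerStrategy n} {g : Finset (Fin n) → Fin n}
    {q : Position n × Fin n} {v : Fin n} (h : Iso q.1 v) : Iso (xstep a b σ g q).1 v :=
  iso_attempt (iso_settle h)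

theorem iso_xrun {a b : ℕ} {σ : MakerStrategy n} {g : Finset (Fin n) → Fin n}
    {q : Position n × Fin n} {v : Fin n} (h : Iso q.1 v) (t : ℕ) :
    Iso ((xstep a b σ g)^[t] q).1 v := by
  induction t with
  | zero => exact h
  | succ t ih => rw [Function.iterate_succ_apply']; exact iso_xstep ih

theorem not_winX_of_iso {a b : ℕ} {σ : MakerStrategy n} {g : Finset (Fin n) → Fin n}
    {q : Position n × Fin n} {v : Fin n} (h : Iso q.1 v) : ¬ WinX a b σ g q := by
  intro hw
  obtain ⟨t, e, he, hv⟩ := hw v
  exact (iso_xrun (a := a) (b := b) (σ := σ) (g := g) h t).1 e he hv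

/-- run with a fixed target -/
noncomputable def vrun (a b : ℕ) (σ : MakerStrategy n) (v : Fin n) (p : Position n) : ℕ → Position n
  | 0 => p
  | k + 1 => attempt σ (settle a b (vrun a b σ v p k) v)

theorem xrun_eq_vrun (a b : ℕ) (σ : MakerStrategy n) (g : Finset (Fin n) → Fin n) (v : Fin n)
    (p : Position n) (k : ℕ) (h : ∀ j < k, v ∉ (σ (vrun a b σ v p j).log).1) :
    (xstep a b σ g)^[k] (p, v) = (vrun a b σ v p k, v) := by
  induction k with
  | zero => rfl
  | succ k ih =>
    rw [Function.iterate_succ_apply', ih (fun j hj => h j (by omega))]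
    unfold xstep
    simp only
    rw [if_neg (h k (by omega))]
    rfl

theorem xrun_hit (a b : ℕ) (σ : MakerStrategy n) (g : Finset (Fin n) → Fin n) (v : Fin n)
    (p : Position n) (k : ℕ) (h : ∀ j < k, v ∉ (σ (vrun a b σ v p j).log).1)
    (hk : v ∈ (σ (vrun a b σ v p k).log).1) :
    (xstep a b σ g)^[k + 1] (p, v) = (vrun a b σ v p (k + 1), g (unatt (vrun a b σ v p (k + 1)).log)) := by
  rw [Function.iterate_succ_apply', xrun_eq_vrun a b σ g v p k h]
  unfold xstep
  simp only
  rw [if_pos hk]
  rfl

/-- invariant: Maker's edges avoid unattempted vertices -/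
def Inv (p : Position n) : Prop := ∀ e ∈ p.maker, ∀ w ∈ unatt p.log, w ∉ e.1

theorem inv_settle {a b : ℕ} {p : Position n} {w : Fin n} (h : Inv p) : Inv (settle a b p w) := by
  unfold Inv
  rw [settle_log, settle_maker]
  exact h

theorem inv_attempt {σ : MakerStrategy n} {p : Position n} (h : Inv p) : Inv (attempt σ p) := by
  intro e he w hw
  obtain ⟨r, hr⟩ := attempt_log σ p
  rw [hr, mem_unatt_cons] at hw
  rw [attempt_maker] at he
  split_ifs at he
  · exact h e he w hw.2
  · rcases mem_insert.1 he with rfl | he
    · exact hw.1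
    · exact h e he w hw.2

theorem inv_vrun {a b : ℕ} {σ : MakerStrategy n} {v : Fin n} {p : Position n} (h : Inv p) (k : ℕ) :
    Inv (vrun a b σ v p k) := by
  induction k with
  | zero => exact h
  | succ k ih => exact inv_attempt (inv_settle ih)

theorem vrun_log_succ (a b : ℕ) (σ : MakerStrategy n) (v : Fin n) (p : Position n) (k : ℕ) :
    ∃ r, (vrun a b σ v p (k + 1)).log = (σ (vrun a b σ v p k).log, r) :: (vrun a b σ v p k).log := by
  obtain ⟨r, hr⟩ := attempt_log σ (settle a b (vrun a b σ v p k) v)
  rw [settle_log] at hr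
  exact ⟨r, hr⟩

theorem vrun_log_length (a b : ℕ) (σ : MakerStrategy n) (v : Fin n) (p : Position n) (k : ℕ) :
    (vrun a b σ v p k).log.length = p.log.length + k := by
  induction k with
  | zero => rfl
  | succ k ih =>
    obtain ⟨r, hr⟩ := vrun_log_succ a b σ v p k
    rw [hr]; simp [ih]; omega

theorem mem_unatt_vrun {a b : ℕ} {σ : MakerStrategy n} {v : Fin n} {p : Position n}
    (hv : v ∈ unatt p.log) (k : ℕ) (h : ∀ j < k, v ∉ (σ (vrun a b σ v p j).log).1) :
    v ∈ unatt (vrun a b σ v p k).log := by
  induction k with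
  | zero => exact hv
  | succ k ih =>
    obtain ⟨r, hr⟩ := vrun_log_succ a b σ v p k
    rw [hr, mem_unatt_cons]
    exact ⟨h k (by omega), ih (fun j hj => h j (by omega))⟩

/-- number of free edges at `v` -/
def fr (p : Position n) (v : Fin n) : ℕ := (p.free.filter (fun e => v ∈ e.1)).card

theorem fr_attempt_le (σ : MakerStrategy n) (p : Position n) (v : Fin n) :
    fr (attempt σ p) v ≤ fr p v := by
  apply card_le_card
  intro e he
  rw [mem_filter, free_iff, attempt_breaker] at he
  rw [mem_filter, free_iff]
  exact ⟨⟨fun h => he.1.1 (maker_subset_attempt σ p h), he.1.2⟩, he.2⟩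

theorem fr_settle_le (a b : ℕ) (p : Position n) (v w : Fin n) : fr (settle a b p w) v ≤ fr p v := by
  apply card_le_card
  intro e he
  rw [mem_filter, free_iff, settle_maker] at he
  rw [mem_filter, free_iff]
  refine ⟨⟨he.1.1, fun h => he.1.2 ?_⟩, he.2⟩
  unfold settle
  split_ifs
  · exact mem_union_left _ h
  · exact h

theorem fr_settle_due (a b : ℕ) (p : Position n) (v : Fin n)
    (hd : 0 < p.log.length ∧ a ∣ p.log.length) : fr (settle a b p v) v ≤ fr p v - b := by
  classical
  obtain ⟨h1, h2, h3⟩ := claim_spec b p v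
  have hfree : (settle a b p v).free = p.free \ claim b p v := by
    ext e
    rw [free_iff, mem_sdiff, free_iff]
    unfold settle
    rw [if_pos hd]
    simp only [mem_union, not_or]
    tauto
  unfold fr
  rw [hfree]
  rcases h3 with h3 | h3
  · have : (p.free \ claim b p v).filter (fun e => v ∈ e.1) = ∅ := by
      rw [filter_eq_empty_iff]
      intro e he hv
      rw [mem_sdiff] at he
      exact he.2 (h3 (mem_filter.2 ⟨he.1, hv⟩))
    rw [this]; simp
  · have hEq : (p.free \ claim b p v).filter (fun e => v ∈ e.1) =
        (p.free.filter (fun e => v ∈ e.1)) \ claim b p v := by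
      ext e; simp only [mem_filter, mem_sdiff]; tauto
    rw [hEq, card_sdiff_of_subset h3, h2]
    have h4 : (p.free.filter (fun e => v ∈ e.1)).card ≤ p.free.card := card_filter_le _ _
    omega

/-- number of due replies among the states `0, …, k-1` -/
noncomputable def dues (a : ℕ) (p : Position n) (k : ℕ) : ℕ :=
  ((range k).filter (fun j => 0 < p.log.length + j ∧ a ∣ p.log.length + j)).card

theorem fr_vrun (a b : ℕ) (σ : MakerStrategy n) (v : Fin n) (p : Position n) (k : ℕ) :
    fr (vrun a b σ v p k) v ≤ fr p v - b * dues a p k := by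
  induction k with
  | zero => simp [vrun, dues]
  | succ k ih =>
    have hd : dues a p (k + 1) =
        dues a p k + if 0 < p.log.length + k ∧ a ∣ p.log.length + k then 1 else 0 := by
      unfold dues
      rw [range_add_one, filter_insert]
      split_ifs with h
      · rw [card_insert_of_notMem (by simp)]
      · rfl
    rw [hd]
    refine (fr_attempt_le σ _ v).trans ?_
    split_ifs with h
    · have h' : 0 < (vrun a b σ v p k).log.length ∧ a ∣ (vrun a b σ v p k).log.length := by
        rw [vrun_log_length]; exact h
      have := fr_settle_due a b (vrun a b σ v p k) v h'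
      rw [mul_add, mul_one]
      omega
    · refine (fr_settle_le a b _ v v).trans ?_
      simpa using ih

theorem dues_ge {a : ℕ} (ha : 0 < a) (p : Position n) (L : ℕ) : L ≤ dues a p (a * L + 1) := by
  classical
  unfold dues
  set N := p.log.length with hN
  -- the multiples of `a` in `(N, N + a L]`
  have hinj : Set.InjOn (fun i => a * (N / a + 1 + i) - N) (range L : Set ℕ) := by
    intro i _ j _ hij
    simp only at hij
    have h1 : N < a * (N / a + 1 + i) := by
      have := Nat.lt_mul_div_succ N ha
      calc N < a * (N / a + 1) := this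
        _ ≤ a * (N / a + 1 + i) := Nat.mul_le_mul_left _ (by omega)
    have h2 : N < a * (N / a + 1 + j) := by
      have := Nat.lt_mul_div_succ N ha
      calc N < a * (N / a + 1) := this
        _ ≤ a * (N / a + 1 + j) := Nat.mul_le_mul_left _ (by omega)
    have h3 : a * (N / a + 1 + i) = a * (N / a + 1 + j) := by omega
    have := Nat.eq_of_mul_eq_mul_left ha h3
    omega
  have hcard : ((range L).image (fun i => a * (N / a + 1 + i) - N)).card = L := by
    rw [card_image_of_injOn hinj, card_range]
  refine hcard.symm.le.trans (card_le_card ?_)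
  intro x hx
  rw [mem_image] at hx
  obtain ⟨i, hi, rfl⟩ := hx
  rw [mem_range] at hi
  have h1 : N < a * (N / a + 1 + i) := by
    have := Nat.lt_mul_div_succ N ha
    calc N < a * (N / a + 1) := this
      _ ≤ a * (N / a + 1 + i) := Nat.mul_le_mul_left _ (by omega)
  have h2 : a * (N / a + 1 + i) ≤ N + a * L := by
    have h3 : a * (N / a) ≤ N := Nat.mul_div_le N a
    calc a * (N / a + 1 + i) = a * (N / a) + a * (1 + i) := by ring
      _ ≤ N + a * L := Nat.add_le_add h3 (Nat.mul_le_mul_left _ (by omega))
  rw [mem_filter, mem_range]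
  refine ⟨by omega, by omega, ?_⟩
  have : N + (a * (N / a + 1 + i) - N) = a * (N / a + 1 + i) := by omega
  rw [this]
  exact dvd_mul_right _ _


/-- if the target is not attempted for long enough, it is isolated -/
theorem iso_of_not_hit {a b L : ℕ} (ha : 0 < a) (hL : n ≤ b * L) {σ : MakerStrategy n} {v : Fin n}
    {p : Position n} (hp : Inv p) (hv : v ∈ unatt p.log)
    (h : ∀ j < a * L + 1, v ∉ (σ (vrun a b σ v p j).log).1) :
    Iso (vrun a b σ v p (a * L + 1)) v := by
  have h1 := fr_vrun a b σ v p (a * L + 1)
  have h2 := dues_ge ha p L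
  have h3 : fr p v ≤ n := card_star v _
  have h4 : b * L ≤ b * dues a p (a * L + 1) := Nat.mul_le_mul_left _ h2
  have h5 : fr (vrun a b σ v p (a * L + 1)) v = 0 := by omega
  refine ⟨fun e he => inv_vrun hp _ e he v (mem_unatt_vrun hv _ h), fun e he hve => ?_⟩
  have := Finset.card_eq_zero.1 h5
  have hmem : e ∈ (vrun a b σ v p (a * L + 1)).free.filter (fun e => v ∈ e.1) :=
    mem_filter.2 ⟨he, hve⟩
  rw [this] at hmem
  exact absurd hmem (notMem_empty _)

/-- the log of Maker if PhantomBreaker claims nothing any more -/
def neutral (σ : MakerStrategy n) (p : Position n) : ℕ → List (Edge n × Bool)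
  | 0 => p.log
  | k + 1 => (σ (neutral σ p k), decide (σ (neutral σ p k) ∉ p.breaker)) :: neutral σ p k

theorem breaker_subset_vrun (a b : ℕ) (σ : MakerStrategy n) (v : Fin n) (p : Position n) (k : ℕ) :
    p.breaker ⊆ (vrun a b σ v p k).breaker := by
  induction k with
  | zero => exact Subset.rfl
  | succ k ih =>
    rw [vrun, attempt_breaker]
    unfold settle
    split_ifs
    · exact ih.trans subset_union_left
    · exact ih

/-- as long as the target is not hit and Maker can still win, the new edges of PhantomBreaker are at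
the target -/
theorem vrun_neutral {a b : ℕ} {σ : MakerStrategy n} {g : Finset (Fin n) → Fin n} {v : Fin n}
    {p : Position n} (hp : Inv p) (hv : v ∈ unatt p.log) (hw : WinX a b σ g (p, v)) (k : ℕ)
    (h : ∀ j < k, v ∉ (σ (vrun a b σ v p j).log).1) :
    (vrun a b σ v p k).log = neutral σ p k ∧
      ∀ e ∈ (vrun a b σ v p k).breaker, e ∈ p.breaker ∨ v ∈ e.1 := by
  induction k with
  | zero => exact ⟨rfl, fun e he => Or.inl he⟩
  | succ k ih =>
    obtain ⟨h1, h2⟩ := ih (fun j hj => h j (by omega))
    have hmono : ∀ e ∈ p.breaker, e ∈ (vrun a b σ v p k).breaker :=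
      fun e he => breaker_subset_vrun a b σ v p k he
    -- the settled position
    have h3 : ∀ e ∈ (settle a b (vrun a b σ v p k) v).breaker, e ∈ p.breaker ∨ v ∈ e.1 := by
      intro e he
      by_cases hd : 0 < (vrun a b σ v p k).log.length ∧ a ∣ (vrun a b σ v p k).log.length
      · obtain ⟨c1, c2, c3⟩ := claim_spec b (vrun a b σ v p k) v
        rcases c3 with c3 | c3
        · exfalso
          -- the target is isolated
          have hiso : Iso (settle a b (vrun a b σ v p k) v) v := by
            refine ⟨?_, ?_⟩
            · rw [settle_maker]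
              intro e he
              exact inv_vrun hp k e he v (mem_unatt_vrun hv k (fun j hj => h j (by omega)))
            · intro e he hve
              rw [free_iff, settle_maker] at he
              unfold settle at he
              rw [if_pos hd] at he
              simp only [mem_union, not_or] at he
              exact he.2.2 (c3 (mem_filter.2 ⟨free_iff.2 ⟨he.1, he.2.1⟩, hve⟩))
          have hrun := xrun_eq_vrun a b σ g v p (k + 1) h
          have hw' := winX_shift a b σ g (p, v) (k + 1) hw
          rw [hrun] at hw'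
          exact not_winX_of_iso (v := v) (q := (vrun a b σ v p (k + 1), v)) (iso_attempt hiso) hw'
        · unfold settle at he
          rw [if_pos hd] at he
          rcases mem_union.1 he with he | he
          · exact h2 e he
          · exact Or.inr (mem_filter.1 (c3 he)).2
      · unfold settle at he
        rw [if_neg hd] at he
        exact h2 e he
    have h4 : ∀ e ∈ p.breaker, e ∈ (settle a b (vrun a b σ v p k) v).breaker := by
      intro e he
      unfold settle
      split_ifs
      · exact mem_union_left _ (hmono e he)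
      · exact hmono e he
    have hnot : v ∉ (σ (neutral σ p k)).1 := by rw [← h1]; exact h k (by omega)
    refine ⟨?_, ?_⟩
    · rw [vrun, neutral]
      unfold attempt
      rw [settle_log, h1]
      split_ifs with hb
      · have : σ (neutral σ p k) ∈ p.breaker := by
          rcases h3 _ hb with h | h
          · exact h
          · exact absurd h hnot
        simp [this]
      · have : σ (neutral σ p k) ∉ p.breaker := fun h => hb (h4 _ h)
        simp [this]
    · rw [vrun, attempt_breaker]
      exact h3

/-- The main structural fact: if Maker wins against target `v`, then `v` is hit early, at a time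
determined by the neutral log. -/
theorem hit_of_win {a b L : ℕ} (ha : 0 < a) (hL : n ≤ b * L) {σ : MakerStrategy n}
    {g : Finset (Fin n) → Fin n} {v : Fin n}
    {p : Position n} (hp : Inv p) (hv : v ∈ unatt p.log) (hw : WinX a b σ g (p, v)) :
    ∃ k < a * L + 1, (∀ j < k, v ∉ (σ (neutral σ p j)).1) ∧ v ∈ (σ (neutral σ p k)).1 ∧
      unatt (vrun a b σ v p (k + 1)).log = unatt (neutral σ p (k + 1)) ∧
      WinX a b σ g (vrun a b σ v p (k + 1), g (unatt (vrun a b σ v p (k + 1)).log)) := by
  classical
  have hex : ∃ k, k < a * L + 1 ∧ v ∈ (σ (vrun a b σ v p k).log).1 := by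
    by_contra hcon
    push Not at hcon
    have hiso := iso_of_not_hit ha hL hp hv hcon
    have hrun := xrun_eq_vrun a b σ g v p (a * L + 1) hcon
    have hw' := winX_shift a b σ g (p, v) (a * L + 1) hw
    rw [hrun] at hw'
    exact not_winX_of_iso (v := v) (q := (vrun a b σ v p (a * L + 1), v)) hiso hw'
  set k := Nat.find hex with hk
  have hk1 : k < a * L + 1 ∧ v ∈ (σ (vrun a b σ v p k).log).1 := Nat.find_spec hex
  have hk2 : ∀ j < k, v ∉ (σ (vrun a b σ v p j).log).1 := by
    intro j hj hmem
    exact Nat.find_min hex hj ⟨by omega, hmem⟩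
  have hneu : ∀ j ≤ k, (vrun a b σ v p j).log = neutral σ p j := fun j hj =>
    (vrun_neutral hp hv hw j (fun i hi => hk2 i (by omega))).1
  refine ⟨k, hk1.1, ?_, ?_, ?_, ?_⟩
  · intro j hj
    rw [← hneu j hj.le]
    exact hk2 j hj
  · rw [← hneu k le_rfl]
    exact hk1.2
  · obtain ⟨r, hr⟩ := vrun_log_succ a b σ v p k
    rw [hr, neutral, hneu k le_rfl]
    ext w
    simp only [mem_unatt_cons]
  · have hrun := xrun_hit a b σ g v p k hk2 hk1.2
    have hw' := winX_shift a b σ g (p, v) (k + 1) hw
    rw [hrun] at hw'
    exact hw'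

/-! ### Dependence on the choice function -/

/-- the winning condition depends only on the values of `g` on sets strictly contained in the set of
unattempted vertices -/
theorem xrun_congr {a b : ℕ} {σ : MakerStrategy n} {g g' : Finset (Fin n) → Fin n}
    {p : Position n} {v : Fin n} (hv : v ∈ unatt p.log)
    (hg : ∀ B, B ⊂ unatt p.log → g B = g' B) (t : ℕ) :
    (xstep a b σ g)^[t] (p, v) = (xstep a b σ g')^[t] (p, v) ∧
      (((xstep a b σ g)^[t] (p, v)).2 = v ∨ unatt ((xstep a b σ g)^[t] (p, v)).1.log ⊂ unatt p.log) ∧
      unatt ((xstep a b σ g)^[t] (p, v)).1.log ⊆ unatt p.log := by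
  induction t with
  | zero => exact ⟨rfl, Or.inl rfl, Subset.rfl⟩
  | succ t ih =>
    obtain ⟨h1, h2, h3⟩ := ih
    rw [Function.iterate_succ_apply', Function.iterate_succ_apply', ← h1]
    set q := (xstep a b σ g)^[t] (p, v) with hq
    obtain ⟨r, hr⟩ := attempt_log σ (settle a b q.1 q.2)
    rw [settle_log] at hr
    have hsub : unatt (attempt σ (settle a b q.1 q.2)).log ⊆ unatt q.1.log := by
      rw [hr]
      intro w hw
      exact (mem_unatt_cons.1 hw).2
    have hlog : ∀ g'' : Finset (Fin n) → Fin n, (xstep a b σ g'' q).1.log =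
        (attempt σ (settle a b q.1 q.2)).log := fun _ => rfl
    by_cases hhit : q.2 ∈ (σ q.1.log).1
    · have hss : unatt (attempt σ (settle a b q.1 q.2)).log ⊂ unatt p.log := by
        rcases h2 with h2 | h2
        · refine ssubset_of_subset_of_ne (hsub.trans h3) (fun heq => ?_)
          rw [← heq, hr] at hv
          rw [h2] at hhit
          exact (mem_unatt_cons.1 hv).1 hhit
        · exact lt_of_le_of_lt hsub h2
      refine ⟨?_, Or.inr ?_, ?_⟩
      · unfold xstep
        rw [if_pos hhit, if_pos hhit, hg _ hss]
      · rw [hlog]; exact hss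
      · rw [hlog]; exact hss.subset
    · refine ⟨?_, ?_, ?_⟩
      · unfold xstep
        rw [if_neg hhit, if_neg hhit]
      · rcases h2 with h2 | h2
        · left
          unfold xstep
          simp only
          rw [if_neg hhit]
          exact h2
        · right
          rw [hlog]
          exact lt_of_le_of_lt hsub h2
      · rw [hlog]; exact hsub.trans h3

theorem winX_congr {a b : ℕ} {σ : MakerStrategy n} {g g' : Finset (Fin n) → Fin n}
    {p : Position n} {v : Fin n} (hv : v ∈ unatt p.log)
    (hg : ∀ B, B ⊂ unatt p.log → g B = g' B) : WinX a b σ g (p, v) ↔ WinX a b σ g' (p, v) := by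
  unfold WinX
  simp only [fun t => (xrun_congr (a := a) (b := b) (σ := σ) hv hg t).1]


/-! ### Averaging over the choice functions -/

/-- The choice functions: each nonempty set is sent to one of its elements. -/
noncomputable def choices (n : ℕ) : Finset (Finset (Fin n) → Fin n) := by
  classical
  exact Fintype.piFinset (fun B => if B.Nonempty then B else univ)

theorem mem_choices {g : Finset (Fin n) → Fin n} :
    g ∈ choices n ↔ ∀ B : Finset (Fin n), B.Nonempty → g B ∈ B := by
  classical
  unfold choices
  rw [Fintype.mem_piFinset]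
  refine forall_congr' fun B => ?_
  by_cases hB : B.Nonempty
  · simp [hB]
  · simp [hB]

theorem choices_nonempty (hn : 0 < n) : (choices n).Nonempty := by
  classical
  refine ⟨fun B => if h : B.Nonempty then h.choose else ⟨0, hn⟩, mem_choices.2 fun B hB => ?_⟩
  simp only [dif_pos hB]
  exact hB.choose_spec

open Classical in
theorem averaging (A : Finset (Fin n)) (hA : A.Nonempty)
    (H : Fin n → (Finset (Fin n) → Fin n) → Prop)
    (hH : ∀ v ∈ A, ∀ g g' : Finset (Fin n) → Fin n, (∀ B, B ≠ A → g B = g' B) → (H v g ↔ H v g')) :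
    A.card * ((choices n).filter (fun g => H (g A) g)).card =
      ∑ v ∈ A, ((choices n).filter (fun g => H v g)).card := by
  have h1 : ∑ v ∈ A, ((choices n).filter (fun g => H v g)).card =
      ((A ×ˢ choices n).filter (fun q => H q.1 q.2)).card := by
    rw [card_filter, sum_product]
    refine sum_congr rfl fun v _ => ?_
    rw [card_filter]
  have h2 : A.card * ((choices n).filter (fun g => H (g A) g)).card =
      ((A ×ˢ choices n).filter (fun q => H (q.2 A) q.2)).card := by
    rw [card_filter, card_filter, sum_product]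
    simp
  rw [h1, h2]
  refine card_nbij' (fun q => (q.2 A, Function.update q.2 A q.1))
    (fun q => (q.2 A, Function.update q.2 A q.1)) ?_ ?_ ?_ ?_
  · rintro ⟨x, g⟩ hq
    simp only [coe_filter, mem_product, Set.mem_ofPred_eq] at hq ⊢
    obtain ⟨⟨hx, hg⟩, hh⟩ := hq
    have hgA : g A ∈ A := mem_choices.1 hg A hA
    refine ⟨⟨hgA, ?_⟩, ?_⟩
    · rw [mem_choices]
      intro B hB
      by_cases hBA : B = A
      · subst hBA; simpa using hx
      · rw [Function.update_of_ne hBA]; exact mem_choices.1 hg B hB
    · exact (hH _ hgA g _ (fun B hB => (Function.update_of_ne hB _ _).symm)).1 hh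
  · rintro ⟨x, g⟩ hq
    simp only [coe_filter, mem_product, Set.mem_ofPred_eq] at hq ⊢
    obtain ⟨⟨hx, hg⟩, hh⟩ := hq
    have hgA : g A ∈ A := mem_choices.1 hg A hA
    refine ⟨⟨hgA, ?_⟩, ?_⟩
    · rw [mem_choices]
      intro B hB
      by_cases hBA : B = A
      · subst hBA; simpa using hx
      · rw [Function.update_of_ne hBA]; exact mem_choices.1 hg B hB
    · rw [Function.update_self]
      exact (hH _ hx g _ (fun B hB => (Function.update_of_ne hB _ _).symm)).1 hh
  · rintro ⟨x, g⟩ _
    simp
  · rintro ⟨x, g⟩ _
    simp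

open Classical in
/-- the number of choice functions that lose against `σ` from position `p` on -/
noncomputable def lost (a b : ℕ) (σ : MakerStrategy n) (p : Position n) : ℕ :=
  ((choices n).filter (fun g => WinX a b σ g (p, g (unatt p.log)))).card

/-- `lost` is at most `φ` times the number of choice functions if at least `α` vertices are
unattempted -/
def Bd (a b : ℕ) (σ : MakerStrategy n) (α : ℕ) (φ : ℝ) : Prop :=
  ∀ p : Position n, Inv p → α ≤ (unatt p.log).card →
    (lost a b σ p : ℝ) ≤ φ * (choices n).card

theorem bd_zero (a b : ℕ) (σ : MakerStrategy n) (α : ℕ) : Bd a b σ α 1 := by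
  classical
  intro p _ _
  rw [one_mul]
  unfold lost
  exact_mod_cast card_filter_le _ _

theorem card_unatt_neutral (σ : MakerStrategy n) (p : Position n) (k : ℕ) :
    (unatt p.log).card ≤ (unatt (neutral σ p k)).card + 2 * k := by
  induction k with
  | zero => simp [neutral]
  | succ k ih =>
    have := card_unatt_cons (σ (neutral σ p k), decide (σ (neutral σ p k) ∉ p.breaker))
      (neutral σ p k)
    rw [neutral]
    omega

theorem master {a b L : ℕ} (ha : 0 < a) (hL : n ≤ b * L) {σ : MakerStrategy n}
    {p : Position n} (hp : Inv p) (hA : (unatt p.log).Nonempty) (c : ℕ → ℝ)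
    (hc : ∀ i < a * L + 1, 0 ≤ c i ∧ Bd a b σ ((unatt p.log).card - 2 * (i + 1)) (c i)) :
    ((unatt p.log).card : ℝ) * lost a b σ p ≤
      (∑ i ∈ range (a * L + 1), 2 * c i) * (choices n).card := by
  classical
  set A := unatt p.log with hAdef
  set G : ℝ := ((choices n).card : ℝ) with hG
  have hG0 : 0 ≤ G := Nat.cast_nonneg _
  have havg := averaging A hA (fun v g => WinX a b σ g (p, v)) (by
    intro v hv g g' hgg
    exact winX_congr hv (fun B hB => hgg B hB.ne))
  have hone : ∀ v ∈ A, (((choices n).filter (fun g => WinX a b σ g (p, v))).card : ℝ) ≤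
      ∑ i ∈ range (a * L + 1), (if v ∈ (σ (neutral σ p i)).1 then c i * G else 0) := by
    intro v hv
    rcases ((choices n).filter (fun g => WinX a b σ g (p, v))).eq_empty_or_nonempty with he | ⟨g0, hg0⟩
    · rw [he]
      simp only [card_empty, Nat.cast_zero]
      refine sum_nonneg fun i hi => ?_
      split_ifs
      · exact mul_nonneg (hc i (mem_range.1 hi)).1 hG0
      · exact le_rfl
    · obtain ⟨i, hi, hbef, hhit, hun, -⟩ := hit_of_win ha hL hp hv (mem_filter.1 hg0).2
      have hle : (((choices n).filter (fun g => WinX a b σ g (p, v))).card : ℝ) ≤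
          lost a b σ (vrun a b σ v p (i + 1)) := by
        unfold lost
        refine Nat.cast_le.2 (card_le_card ?_)
        intro g hg
        rw [mem_filter] at hg ⊢
        refine ⟨hg.1, ?_⟩
        obtain ⟨j, hj, hbef', hhit', -, hwin⟩ := hit_of_win ha hL hp hv hg.2
        have : j = i := by
          rcases lt_trichotomy j i with h | h | h
          · exact absurd hhit' (hbef j h)
          · exact h
          · exact absurd hhit (hbef' i h)
        rw [this] at hwin
        exact hwin
      have hcard : A.card - 2 * (i + 1) ≤ (unatt (vrun a b σ v p (i + 1)).log).card := by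
        rw [hun]
        have := card_unatt_neutral σ p (i + 1)
        rw [← hAdef] at this
        omega
      refine hle.trans (((hc i hi).2 _ (inv_vrun hp _) hcard).trans ?_)
      have hterm : c i * G = (if v ∈ (σ (neutral σ p i)).1 then c i * G else 0) := by
        rw [if_pos hhit]
      rw [← hG, hterm]
      refine single_le_sum (f := fun i => if v ∈ (σ (neutral σ p i)).1 then c i * G else 0)
        (fun j hj => ?_) (mem_range.2 hi)
      split_ifs
      · exact mul_nonneg (hc j (mem_range.1 hj)).1 hG0
      · exact le_rfl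
  have hfin : ((A.card : ℝ)) * lost a b σ p =
      ∑ v ∈ A, (((choices n).filter (fun g => WinX a b σ g (p, v))).card : ℝ) := by
    unfold lost
    exact_mod_cast havg
  rw [hfin]
  refine (sum_le_sum hone).trans ?_
  rw [sum_comm, sum_mul]
  refine sum_le_sum fun i hi => ?_
  rw [← sum_filter, sum_const, nsmul_eq_mul]
  have h2 : ((A.filter (fun v => v ∈ (σ (neutral σ p i)).1)).card : ℝ) ≤ 2 := by
    exact_mod_cast card_mem_le_two _ _
  have h3 : 0 ≤ c i * G := mul_nonneg (hc i (mem_range.1 hi)).1 hG0
  calc _ ≤ 2 * (c i * G) := mul_le_mul_of_nonneg_right h2 h3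
    _ = 2 * c i * G := by ring

theorem bd_mono {a b : ℕ} {σ : MakerStrategy n} {α β : ℕ} {φ : ℝ} (h : Bd a b σ α φ)
    (hαβ : α ≤ β) : Bd a b σ β φ := fun p hp hβ => h p hp (hαβ.trans hβ)

/-- If at least `α` vertices are unattempted, `c` times the number of choice functions bounds the
total. -/
theorem bd_of_sum {a b L : ℕ} (ha : 0 < a) (hL : n ≤ b * L) {σ : MakerStrategy n} {α : ℕ}
    (hα : 0 < α) (c : ℕ → ℝ)
    (hc : ∀ i < a * L + 1, 0 ≤ c i ∧ Bd a b σ (α - 2 * (i + 1)) (c i)) :
    Bd a b σ α ((∑ i ∈ range (a * L + 1), 2 * c i) / α) := by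
  intro p hp hcard
  have hA : (unatt p.log).Nonempty := by
    rw [← card_pos]; omega
  have h := master ha hL hp hA c (fun i hi => ⟨(hc i hi).1, bd_mono (hc i hi).2 (by omega)⟩)
  have hα' : (0 : ℝ) < α := Nat.cast_pos.2 hα
  have hle : (α : ℝ) * lost a b σ p ≤ ((unatt p.log).card : ℝ) * lost a b σ p :=
    mul_le_mul_of_nonneg_right (Nat.cast_le.2 hcard) (Nat.cast_nonneg _)
  rw [div_mul_eq_mul_div, le_div_iff₀ hα']
  linarith

theorem bd_one {a b L : ℕ} (ha : 0 < a) (hL : n ≤ b * L) (σ : MakerStrategy n) :
    Bd a b σ (3 * (a * L + 1)) (2 / 3) := by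
  have h := bd_of_sum ha hL (σ := σ) (α := 3 * (a * L + 1)) (by omega) (fun _ => 1)
    (fun i _ => ⟨zero_le_one, bd_zero a b σ _⟩)
  have : (∑ i ∈ range (a * L + 1), 2 * (fun _ => (1 : ℝ)) i) / ((3 * (a * L + 1) : ℕ) : ℝ) = 2 / 3 := by
    have hpos : (0 : ℝ) < (a : ℝ) * L + 1 := by positivity
    simp only [sum_const, card_range, nsmul_eq_mul]
    push_cast
    field_simp
  rwa [this] at h

theorem card_quarter (κ : ℕ) : κ ≤ 4 * ((range κ).filter (fun i => 4 * i < κ)).card := by
  have : (range ((κ + 3) / 4)) ⊆ (range κ).filter (fun i => 4 * i < κ) := by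
    intro i hi
    rw [mem_range] at hi
    rw [mem_filter, mem_range]
    omega
  have h := card_le_card this
  rw [card_range] at h
  omega

theorem bd_two {a b L s : ℕ} (ha : 0 < a) (hL : n ≤ b * L) (σ : MakerStrategy n)
    (hs : 2 * s + 4 ≤ a * L + 1) :
    Bd a b σ (4 * (a * L + 1) - s)
      ((11 / 6 * ((a * L + 1 : ℕ) : ℝ)) / (4 * ((a * L + 1 : ℕ) : ℝ) - s)) := by
  classical
  set κ := a * L + 1 with hκ
  have h := bd_of_sum ha hL (σ := σ) (α := 4 * κ - s) (by omega)
    (fun i => if 4 * i < κ then 2 / 3 else 1) (by
      intro i hi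
      split_ifs with h4
      · refine ⟨by norm_num, bd_mono (bd_one ha hL σ) ?_⟩
        rw [← hκ]
        omega
      · exact ⟨zero_le_one, bd_zero a b σ _⟩)
  intro p hp hcard
  refine (h p hp hcard).trans (mul_le_mul_of_nonneg_right ?_ (Nat.cast_nonneg _))
  have hcast : ((4 * κ - s : ℕ) : ℝ) = 4 * (κ : ℝ) - s := by
    rw [Nat.cast_sub (by omega)]
    push_cast
    ring
  rw [hcast]
  have hpos : (0 : ℝ) < 4 * (κ : ℝ) - s := by
    rw [← hcast]
    exact Nat.cast_pos.2 (by omega)
  refine div_le_div_of_nonneg_right ?_ hpos.le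
  have hsum : ∑ i ∈ range κ, 2 * (if 4 * i < κ then (2 / 3 : ℝ) else 1) =
      2 * κ - 2 / 3 * ((range κ).filter (fun i => 4 * i < κ)).card := by
    have : ∀ i ∈ range κ, 2 * (if 4 * i < κ then (2 / 3 : ℝ) else 1) =
        2 - 2 / 3 * (if 4 * i < κ then 1 else 0) := by
      intro i _
      split_ifs <;> norm_num
    rw [sum_congr rfl this, sum_sub_distrib, ← mul_sum, ← sum_filter]
    simp [mul_comm]
  rw [hsum]
  have hq : (κ : ℝ) ≤ 4 * ((range κ).filter (fun i => 4 * i < κ)).card := by
    exact_mod_cast card_quarter κ
  linarith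

theorem bd_succ {a b L s j : ℕ} (ha : 0 < a) (hL : n ≤ b * L) (σ : MakerStrategy n)
    {φ : ℝ} (hφ : 0 ≤ φ) (hs : s < 2 * (a * L + 1)) (h : Bd a b σ (2 * j * (a * L + 1) - s) φ) :
    Bd a b σ (2 * (j + 1) * (a * L + 1) - s)
      (φ * ((2 * ((a * L + 1 : ℕ) : ℝ)) / (2 * (j + 1) * ((a * L + 1 : ℕ) : ℝ) - s))) := by
  set κ := a * L + 1 with hκ
  have hexp : 2 * (j + 1) * κ = 2 * j * κ + 2 * κ := by ring
  have h' := bd_of_sum ha hL (σ := σ) (α := 2 * (j + 1) * κ - s) (by rw [hexp]; omega)
    (fun _ => φ) (fun i hi => ⟨hφ, bd_mono h (by rw [hexp]; omega)⟩)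
  have hcast : ((2 * (j + 1) * κ - s : ℕ) : ℝ) = 2 * (j + 1) * (κ : ℝ) - s := by
    rw [Nat.cast_sub (by rw [hexp]; omega)]
    push_cast
    ring
  have heq : (∑ i ∈ range (a * L + 1), 2 * (fun _ => φ) i) / ((2 * (j + 1) * κ - s : ℕ) : ℝ) =
      φ * ((2 * (κ : ℝ)) / (2 * (j + 1) * (κ : ℝ) - s)) := by
    rw [hcast]
    simp only [sum_const, card_range, nsmul_eq_mul]
    rw [← hκ]
    ring
  rwa [heq] at h'

/-- the bounds -/
noncomputable def phi (s : ℕ) (κ : ℝ) : ℕ → ℝ
  | 0 => (11 / 6 * κ) / (4 * κ - s)
  | j + 1 => phi s κ j * ((2 * κ) / (2 * (((j + 2 : ℕ) : ℝ) + 1) * κ - s))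

theorem phi_nonneg {s : ℕ} {κ : ℝ} (hκ : (s : ℝ) < 2 * κ) (j : ℕ) : 0 ≤ phi s κ j := by
  have hκ0 : 0 < κ := by
    have : (0 : ℝ) ≤ s := Nat.cast_nonneg _
    linarith
  induction j with
  | zero =>
    unfold phi
    apply div_nonneg <;> linarith
  | succ j ih =>
    unfold phi
    refine mul_nonneg ih (div_nonneg (by linarith) ?_)
    have : (0 : ℝ) ≤ ((j + 2 : ℕ) : ℝ) * κ := by positivity
    nlinarith

theorem bd_phi {a b L s : ℕ} (ha : 0 < a) (hL : n ≤ b * L) (σ : MakerStrategy n)
    (hs : 2 * s + 4 ≤ a * L + 1) (j : ℕ) :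
    Bd a b σ (2 * (j + 2) * (a * L + 1) - s) (phi s ((a * L + 1 : ℕ) : ℝ) j) := by
  induction j with
  | zero =>
    have h := bd_two ha hL σ hs
    unfold phi
    convert h using 2
  | succ j ih =>
    have hsR : (s : ℝ) < 2 * ((a * L + 1 : ℕ) : ℝ) := by
      exact_mod_cast (by omega : s < 2 * (a * L + 1))
    exact bd_succ (j := j + 2) ha hL σ (phi_nonneg hsR j) (by omega) ih

theorem phi_tendsto (s j : ℕ) :
    Filter.Tendsto (fun κ : ℕ => phi s (κ : ℝ) j) Filter.atTop
      (nhds (11 / 12 / ((j + 2).factorial : ℝ))) := by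
  have key : ∀ c : ℝ, 0 < c → ∀ d : ℝ, Filter.Tendsto (fun κ : ℕ => (d * (κ : ℝ)) / (c * (κ : ℝ) - s))
      Filter.atTop (nhds (d / c)) := by
    intro c hc d
    have h1 : Filter.Tendsto (fun κ : ℕ => d / (c - (s : ℝ) / (κ : ℝ))) Filter.atTop
        (nhds (d / (c - 0))) := by
      refine Filter.Tendsto.div tendsto_const_nhds ?_ (by simpa using hc.ne')
      exact tendsto_const_nhds.sub (tendsto_const_div_atTop_nhds_zero_nat _)
    rw [sub_zero] at h1
    refine h1.congr' ?_
    filter_upwards [Filter.eventually_gt_atTop 0] with κ hκ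
    have hκ' : (κ : ℝ) ≠ 0 := by positivity
    have : c * (κ : ℝ) - s = (c - (s : ℝ) / κ) * κ := by field_simp
    rw [this, mul_div_mul_right _ _ hκ']
  induction j with
  | zero =>
    unfold phi
    have := key 4 (by norm_num) (11 / 6)
    convert this using 2
    norm_num [Nat.factorial]
  | succ j ih =>
    unfold phi
    have h2 := key (2 * (((j + 2 : ℕ) : ℝ) + 1)) (by positivity) 2
    have h3 := ih.mul h2
    convert h3 using 2
    have : ((j + 1 + 2).factorial : ℝ) = ((j + 2 : ℕ) + 1 : ℝ) * ((j + 2).factorial : ℝ) := by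
      rw [show j + 1 + 2 = (j + 2) + 1 by ring, Nat.factorial_succ]
      push_cast
      ring
    rw [this]
    have hne : ((j + 2).factorial : ℝ) ≠ 0 := by positivity
    have hne2 : (((j + 2 : ℕ) : ℝ) + 1) ≠ 0 := by positivity
    field_simp


/-! ### Averaging over Maker's randomisation -/

theorem inv_start : Inv (⟨∅, ∅, []⟩ : Position n) := by
  intro e he
  exact absurd he (notMem_empty _)

theorem exists_choice {a b L s j : ℕ} (hn : 0 < n) (ha : 0 < a) (hL : n ≤ b * L)
    (hs : 2 * s + 4 ≤ a * L + 1) (hn2 : 2 * (j + 2) * (a * L + 1) ≤ n + s)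
    (μ : PMF (MakerStrategy n)) :
    ∃ g ∈ choices n, winProb a μ (strat b g) ≤ ENNReal.ofReal (phi s ((a * L + 1 : ℕ) : ℝ) j) := by
  classical
  set φ := phi s ((a * L + 1 : ℕ) : ℝ) j with hφ
  have hsR : (s : ℝ) < 2 * ((a * L + 1 : ℕ) : ℝ) := by
    exact_mod_cast (by omega : s < 2 * (a * L + 1))
  have hφ0 : 0 ≤ φ := phi_nonneg hsR j
  -- pointwise bound
  have hpt : ∀ σ : MakerStrategy n,
      (((choices n).filter (fun g => MakerWins a σ (strat b g))).card : ℝ≥0∞) ≤
        ENNReal.ofReal φ * (choices n).card := by
    intro σ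
    have h := bd_phi ha hL σ hs j (⟨∅, ∅, []⟩ : Position n) inv_start (by
      simp only [unatt_nil, card_univ, Fintype.card_fin]
      omega)
    rw [← hφ] at h
    have h1 : ((choices n).filter (fun g => MakerWins a σ (strat b g))).card =
        lost a b σ (⟨∅, ∅, []⟩ : Position n) := by
      unfold lost
      congr 1
      ext g
      simp only [mem_filter, makerWins_iff]
    rw [h1]
    have h2 := ENNReal.ofReal_le_ofReal h
    rw [ENNReal.ofReal_natCast, ENNReal.ofReal_mul hφ0, ENNReal.ofReal_natCast] at h2
    exact h2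
  have hsum : ∑ g ∈ choices n, winProb a μ (strat b g) ≤ ENNReal.ofReal φ * (choices n).card := by
    have h1 : ∑ g ∈ choices n, winProb a μ (strat b g) =
        ∑' σ, μ σ * (((choices n).filter (fun g => MakerWins a σ (strat b g))).card : ℝ≥0∞) := by
      unfold winProb
      simp only [PMF.toOuterMeasure_apply]
      rw [← Summable.tsum_finsetSum (fun i _ => ENNReal.summable)]
      refine tsum_congr fun σ => ?_
      rw [card_filter]
      push_cast
      rw [mul_sum]
      refine sum_congr rfl fun g _ => ?_
      rw [Set.indicator_apply]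
      by_cases h : MakerWins a σ (strat b g)
      · rw [if_pos h, if_pos (by exact h), mul_one]
      · rw [if_neg h, if_neg (by exact h), mul_zero]
    rw [h1]
    calc _ ≤ ∑' σ, μ σ * (ENNReal.ofReal φ * (choices n).card) :=
          ENNReal.tsum_le_tsum fun σ => mul_le_mul_right (hpt σ) _
      _ = ENNReal.ofReal φ * (choices n).card := by
          rw [ENNReal.tsum_mul_right, μ.tsum_coe, one_mul]
  by_contra hcon
  push Not at hcon
  have hne := choices_nonempty hn
  have hlt : ∑ _g ∈ choices n, ENNReal.ofReal φ < ∑ g ∈ choices n, winProb a μ (strat b g) :=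
    ENNReal.sum_lt_sum_of_nonempty hne hcon
  rw [sum_const, nsmul_eq_mul, mul_comm] at hlt
  exact absurd hlt (not_lt.2 hsum)

/-- **Disproof of the assertion of the problem.** Let `a > 0` and `b = 2 * a * m` with `m > 1`. For
all large `n`, against every randomized strategy of Maker on the complete graph with `n` vertices,
some strategy of PhantomBreaker holds Maker's winning probability below `(19 / 20) / m!`. -/
theorem result (a b m : ℕ) (ha : 0 < a) (hm : 1 < m) (hb : b = 2 * a * m) :
    ∃ N : ℕ, ∀ n, N ≤ n → ∀ μ : PMF (MakerStrategy n),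
      ∃ τ : BreakerStrategy n, Legal b τ ∧
        winProb a μ τ < ENNReal.ofReal (19 / 20 / (m.factorial : ℝ)) := by
  obtain ⟨j, rfl⟩ : ∃ j, m = j + 2 := ⟨m - 2, by omega⟩
  have hb0 : 0 < b := by rw [hb]; positivity
  set s := b + 2 * (j + 2) with hs
  have hlim := phi_tendsto s j
  have hlt : (11 / 12 / ((j + 2).factorial : ℝ)) < 19 / 20 / ((j + 2).factorial : ℝ) := by
    have : (0 : ℝ) < (j + 2).factorial := by positivity
    apply div_lt_div_of_pos_right _ this
    norm_num
  have hev := hlim.eventually (gt_mem_nhds hlt)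
  obtain ⟨K, hK⟩ := Filter.eventually_atTop.1 hev
  refine ⟨b * (K + (2 * s + 4)) + 1, fun n hn μ => ?_⟩
  set L := n / b + 1 with hL
  have hdiv : K + (2 * s + 4) ≤ n / b := by
    rw [Nat.le_div_iff_mul_le hb0]
    nlinarith
  have hL1 : n ≤ b * L := by
    have := Nat.lt_mul_div_succ n hb0
    exact this.le
  have haL : K + (2 * s + 4) ≤ a * L + 1 := by
    have : L ≤ a * L := Nat.le_mul_of_pos_left _ ha
    omega
  have hn2 : 2 * (j + 2) * (a * L + 1) ≤ n + s := by
    have h1 : 2 * (j + 2) * (a * L + 1) = b * (n / b) + b + 2 * (j + 2) := by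
      rw [hL, hb]; ring
    have h2 : b * (n / b) ≤ n := Nat.mul_div_le n b
    omega
  obtain ⟨g, -, hg⟩ := exists_choice (s := s) (by omega) ha hL1 (by omega) hn2 μ
  refine ⟨strat b g, strat_legal b g, lt_of_le_of_lt hg ?_⟩
  have hK' := hK (a * L + 1) (by omega)
  have hpos : (0 : ℝ) < 19 / 20 / ((j + 2).factorial : ℝ) := by positivity
  exact (ENNReal.ofReal_lt_ofReal_iff hpos).2 hK'

end Pool.Agent.Results.MP_5d876b_co.BelowInverseFactorial
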